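import Pool.Agent.N413.YG

/-!
# MP_f0827e_co: intersection graphs of connected subgraphs of subdivisions can be universal

`Step`, `subdiv`, `IsSubdivision`, `InClass`, `Universal`, `TripleLinked` are defined in
`Pool/Agent/N413/YGDefs.lean`.

Proof.  The starting library (`W125/DimH`, made for MP_89b4f4_co) constructs for every finite group
a finite poset of height two which is the intersection of three linear orders and whose
comparability graph has this automorphism group.  Its complement has the same automorphism group,
and consists of two cliques, the lower and the upper elements.  Let `A`, `B` be disjoint connected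
sets of vertices of `Y` with three edges between them.  Subdivide the three edges.  A lower element
`x` is represented by `A` together with the initial segments of the three paths up to the positions
of `x` in the three orders, an upper element `y` by `B` and the final segments from the positions
of `y` on.  These sets are disjoint iff `x` lies before `y` in all the three orders.
-/

set_option autoImplicit false

namespace Pool.Agent.Results.MP_f0827e_co.ThetaUniversal

open Pool.Agent.N413.YG

theorem theta : TripleLinked (completeBipartiteGraph (Fin 2) (Fin 3)) := by
  classical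
  refine ⟨{Sum.inl 0}, {v | v ≠ Sum.inl 0}, ?_, ?_, ?_, ?_⟩
  · rw [Set.disjoint_left]
    rintro v rfl h
    exact h rfl
  · rw [SimpleGraph.connected_iff_exists_forall_reachable]
    refine ⟨⟨Sum.inl 0, rfl⟩, ?_⟩
    rintro ⟨w, rfl⟩
    exact SimpleGraph.Reachable.refl _
  · rw [SimpleGraph.connected_iff_exists_forall_reachable]
    refine ⟨⟨Sum.inl 1, by simp⟩, ?_⟩
    rintro ⟨w | w, hw⟩
    · have h1 : w = 1 := by
        have h2 : w ≠ 0 := fun h => hw (by rw [h])
        omega
      subst h1
      exact SimpleGraph.Reachable.refl _
    · apply SimpleGraph.Adj.reachable
      simp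
  · have h : (Set.range (fun j : Fin 3 => s((Sum.inl 0 : Fin 2 ⊕ Fin 3), Sum.inr j))) ⊆
        {e | e ∈ (completeBipartiteGraph (Fin 2) (Fin 3)).edgeSet ∧
          ∃ a ∈ ({Sum.inl 0} : Set (Fin 2 ⊕ Fin 3)),
            ∃ b ∈ {v : Fin 2 ⊕ Fin 3 | v ≠ Sum.inl 0}, e = s(a, b)} := by
      rintro _ ⟨j, rfl⟩
      refine ⟨by simp, Sum.inl 0, rfl, Sum.inr j, by simp, rfl⟩
    refine le_trans ?_ (Set.ncard_le_ncard h (Set.toFinite _))
    rw [← Nat.card_coe_set_eq, Nat.card_range_of_injective]
    · simp
    · intro i j hij
      rcases Sym2.eq_iff.1 hij with ⟨_, h2⟩ | ⟨h1, _⟩
      · exact Sum.inr_injective h2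
      · cases h1

/-- (1) Let `Y` be a finite graph with two disjoint sets of vertices which induce connected graphs
and have at least three edges between them. Then the class of the intersection graphs of finite
families of connected subgraphs of subdivisions of `Y` is universal. (2) In particular it is
universal for the complete bipartite graph `K_{2,3}`, (3) and it is not true that it is non-universal
for all finite graphs `Y`. -/
theorem result :
    (∀ (V : Type) [Finite V] (Y : SimpleGraph V), TripleLinked Y → Universal Y) ∧
    Universal (completeBipartiteGraph (Fin 2) (Fin 3)) ∧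
    ¬ ∀ (V : Type) [Finite V] (Y : SimpleGraph V), ¬ Universal Y :=
  ⟨fun _ _ Y hY => universal' Y hY, universal' _ theta, fun h => h _ _ (universal' _ theta)⟩

end Pool.Agent.Results.MP_f0827e_co.ThetaUniversal
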